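import Pool.Agent.Work.MP_c10eee_an.NonRep
import Pool.Agent.Work.MP_c10eee_an.Ode

namespace Pool.Agent.Results.MP_c10eee_an.RigidityFails

open Set Metric Filter Topology Laplacian

/-- `f ∈ C_0^∞(ℝ)` with `f ≥ 0`. -/
def Admissible (f : ℝ → ℝ) : Prop :=
  ContDiff ℝ (⊤ : ℕ∞) f ∧ HasCompactSupport f ∧ ∀ t, 0 ≤ f t

/-- One-dimensional solutions: `V'' = f(V)` on all of `ℝ`. -/
def OneDimSol (f V : ℝ → ℝ) : Prop :=
  ContDiff ℝ 2 V ∧ ∀ s, deriv (deriv V) s = f (V s)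

/-- `u` is a classical solution of `Δ u = f(u)` in the open unit ball of `ℝⁿ`. -/
def SolvesInBall (n : ℕ) (f : ℝ → ℝ) (u : EuclideanSpace ℝ (Fin n) → ℝ) : Prop :=
  ContDiffOn ℝ 2 u (ball 0 1) ∧
    ∀ x ∈ ball (0 : EuclideanSpace ℝ (Fin n)) 1, (Δ u) x = f (u x)

/-- `u` is homeomorphic to a one-dimensional solution: `u(x) = V(⟨Φ(x), a⟩)` in the open unit ball,
with `Φ` a homeomorphism of the closed unit ball onto itself and `a` a unit vector. -/
def HomeoOneDim (n : ℕ) (f : ℝ → ℝ) (u : EuclideanSpace ℝ (Fin n) → ℝ) : Prop :=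
  ∃ (V : ℝ → ℝ) (a : EuclideanSpace ℝ (Fin n))
    (Φ : closedBall (0 : EuclideanSpace ℝ (Fin n)) 1 ≃ₜ
      closedBall (0 : EuclideanSpace ℝ (Fin n)) 1),
    OneDimSol f V ∧ ‖a‖ = 1 ∧
    ∀ (x : EuclideanSpace ℝ (Fin n)) (hx : x ∈ ball (0 : EuclideanSpace ℝ (Fin n)) 1),
      u x = V (inner ℝ (Φ ⟨x, ball_subset_closedBall hx⟩ : EuclideanSpace ℝ (Fin n)) a)

/-- On the ball of radius `δ` one has `u(x) = V(⟨Φ(x), a⟩)` with a one-dimensional solution `V`,
a unit vector `a` and a map `Φ` with `c|x - y| ≤ |Φ(x) - Φ(y)| ≤ C|x - y|`. For `c = 99/100` and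
`C = 101/100` this says that `Φ` is an isometry up to distortion of 1 percent. -/
def BilipOneDim (n : ℕ) (f : ℝ → ℝ) (u : EuclideanSpace ℝ (Fin n) → ℝ) (c C δ : ℝ) : Prop :=
  ∃ (V : ℝ → ℝ) (a : EuclideanSpace ℝ (Fin n))
    (Φ : EuclideanSpace ℝ (Fin n) → EuclideanSpace ℝ (Fin n)),
    OneDimSol f V ∧ ‖a‖ = 1 ∧
    (∀ x ∈ ball (0 : EuclideanSpace ℝ (Fin n)) δ, ∀ y ∈ ball (0 : EuclideanSpace ℝ (Fin n)) δ,
      c * ‖x - y‖ ≤ ‖Φ x - Φ y‖ ∧ ‖Φ x - Φ y‖ ≤ C * ‖x - y‖) ∧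
    ∀ x ∈ ball (0 : EuclideanSpace ℝ (Fin n)) δ, u x = V (inner ℝ (Φ x) a)

open Pool.Agent.Work.MP_c10eee_an

lemma oneDimSol_of_system {f V W : ℝ → ℝ} (hf : Continuous f) (hV : ∀ t, HasDerivAt V (W t) t)
    (hW : ∀ t, HasDerivAt W (f (V t)) t) : OneDimSol f V := by
  have e1 : deriv V = W := funext fun t => (hV t).deriv
  have e2 : deriv W = fun t => f (V t) := funext fun t => (hW t).deriv
  have hVd : Differentiable ℝ V := fun t => (hV t).differentiableAt
  have hWd : Differentiable ℝ W := fun t => (hW t).differentiableAt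
  constructor
  · have h1 : ContDiff ℝ 1 W := by
      rw [contDiff_one_iff_deriv]
      refine ⟨hWd, ?_⟩
      rw [e2]
      exact hf.comp hVd.continuous
    have h2 : ContDiff ℝ (1 + 1) V := by
      rw [contDiff_succ_iff_deriv]
      exact ⟨hVd, by simp, by rw [e1]; exact h1⟩
    exact h2.of_le (by norm_num)
  · intro s
    rw [e1, e2]

lemma ge_of_crit {f V : ℝ → ℝ} (hf0 : ∀ t, 0 ≤ f t) (hV : OneDimSol f V) {s₀ : ℝ}
    (h0 : deriv V s₀ = 0) (s : ℝ) : V s₀ ≤ V s := by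
  have hd1 : Differentiable ℝ V := hV.1.differentiable (by norm_num)
  have hd2 : Differentiable ℝ (deriv V) := by
    have h : ContDiff ℝ (1 + 1) V := hV.1.of_le (by norm_num)
    rw [contDiff_succ_iff_deriv] at h
    exact h.2.2.differentiable (by norm_num)
  have hmono : Monotone (deriv V) := monotone_of_deriv_nonneg hd2 fun t => by
    rw [hV.2]; exact hf0 _
  rcases lt_trichotomy s s₀ with h | h | h
  · obtain ⟨ξ, hξ, he⟩ := exists_deriv_eq_slope V h hd1.continuous.continuousOn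
      hd1.differentiableOn
    have h1 : deriv V ξ ≤ 0 := by rw [← h0]; exact hmono hξ.2.le
    rw [he, div_le_iff₀ (by linarith)] at h1
    linarith
  · rw [h]
  · obtain ⟨ξ, hξ, he⟩ := exists_deriv_eq_slope V h hd1.continuous.continuousOn
      hd1.differentiableOn
    have h1 : 0 ≤ deriv V ξ := by rw [← h0]; exact hmono hξ.1.le
    rw [he, le_div_iff₀ (by linarith)] at h1
    linarith

lemma exists_lower {V : ℝ → ℝ} {s₀ d : ℝ} (hV : HasDerivAt V d s₀) (hd : d ≠ 0) :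
    ∃ ε > 0, ∀ s, |s - s₀| < ε → |d| / 2 * |s - s₀| ≤ |V s - V s₀| := by
  have h1 := (hasDerivAt_iff_isLittleO.1 hV).def (show 0 < |d| / 2 by positivity)
  rw [Metric.eventually_nhds_iff] at h1
  obtain ⟨ε, hε, h⟩ := h1
  refine ⟨ε, hε, fun s hs => ?_⟩
  have h2 := h (show dist s s₀ < ε by rw [Real.dist_eq]; exact hs)
  rw [Real.norm_eq_abs, Real.norm_eq_abs, smul_eq_mul] at h2
  have h3 : |(s - s₀) * d| ≤ |V s - V s₀ - (s - s₀) * d| + |V s - V s₀| := by
    have := abs_sub (V s - V s₀) (V s - V s₀ - (s - s₀) * d)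
    have e : V s - V s₀ - (V s - V s₀ - (s - s₀) * d) = (s - s₀) * d := by ring
    rw [e] at this
    linarith
  rw [abs_mul] at h3
  linarith

lemma uu_zero : uu 0 = 0 := by simp [uu]

lemma uu_neg {t : ℝ} (ht : 0 < t) : uu (!₂[-t, 0, 0] : E3) < 0 := by
  have : uu (!₂[-t, 0, 0] : E3) = -(t * (7 * (t ^ 4 + 2 * t ^ 2))) := by
    show (-t) * cA ((-t) ^ 2 + 0 ^ 2) 0 + 0 * cB ((-t) ^ 2 + 0 ^ 2) 0 = _
    unfold cA cB
    ring
  rw [this]
  have : 0 < t * (7 * (t ^ 4 + 2 * t ^ 2)) := by positivity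
  linarith

/-- **Q1 has a negative answer (n = 3), for every admissible nonlinearity.** For every
`f ∈ C_0^∞(ℝ)`, `f ≥ 0`, there is a solution `u` of `Δ u = f(u)` in the unit ball of `ℝ³` which is
homeomorphic to a one-dimensional solution but which on no ball around the origin is of the form
`V(⟨Φ(x), a⟩)` with `V` a one-dimensional solution and `Φ` bi-Lipschitz, whatever the
constants (in particular for the constants `99/100` and `101/100`). -/
theorem result (f : ℝ → ℝ) (hf : Admissible f) :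
    ∃ u : EuclideanSpace ℝ (Fin 3) → ℝ, SolvesInBall 3 f u ∧ HomeoOneDim 3 f u ∧
      ∀ c C δ : ℝ, 0 < c → 0 < δ → ¬ BilipOneDim 3 f u c C δ := by
  obtain ⟨hsm, hcs, hf0⟩ := hf
  obtain ⟨K, hK⟩ := hsm.lipschitzWith_of_hasCompactSupport hcs (by simp)
  obtain ⟨C₀, hC₀⟩ := hcs.exists_bound_of_continuous hsm.continuous
  -- a level region where `f` vanishes
  obtain ⟨R, hR⟩ : ∃ R : ℝ, ∀ t, R < t → f t = 0 := by
    obtain ⟨R, hR⟩ := hcs.isCompact.isBounded.bddAbove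
    refine ⟨R, fun t ht => ?_⟩
    by_contra hne
    have : t ∈ tsupport f := subset_tsupport f hne
    exact absurd (hR this) (not_le.2 ht)
  set M : ℝ := R + 2 with hM
  have hMz : ∀ s ∈ Icc (-1 : ℝ) 1, f (M + s) = 0 := fun s hs => hR _ (by
    rw [hM]; linarith [hs.1])
  obtain ⟨V, W, hVaff, hV, hW⟩ := global_sol_affine hK (C := C₀)
    (fun t => by simpa using hC₀ t) M hMz
  obtain ⟨Φ, hΦ⟩ := uu_homeo
  have hrange : ∀ x (hx : x ∈ closedBall (0 : E3) 1), uu x / 21 ∈ Icc (-1 : ℝ) 1 := by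
    intro x hx
    rw [← hΦ ⟨x, hx⟩]
    have h1 := (mem_ball_iff _).1 (Φ ⟨x, hx⟩).2
    have h2 : ((Φ ⟨x, hx⟩ : E3) 0) ^ 2 ≤ 1 := by
      nlinarith [sq_nonneg ((Φ ⟨x, hx⟩ : E3) 1), sq_nonneg ((Φ ⟨x, hx⟩ : E3) 2)]
    exact abs_le.1 ((sq_le_one_iff_abs_le_one _).1 h2)
  refine ⟨fun x => M + uu x / 21, ⟨?_, ?_⟩, ?_, ?_⟩
  · have h := contDiff_uu (n := 2)
    exact (contDiff_const.add (h.div_const 21)).contDiffOn
  · intro x hx
    have h1 : (fun x : E3 => M + uu x / 21) = (fun _ : E3 => M) + (1 / 21 : ℝ) • uu := by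
      funext y
      simp only [Pi.add_apply, Pi.smul_apply, smul_eq_mul]
      ring
    rw [h1]
    have h2 : (Δ ((fun _ : E3 => M) + (1 / 21 : ℝ) • uu)) x =
        (Δ (fun _ : E3 => M)) x + (Δ ((1 / 21 : ℝ) • uu)) x :=
      ContDiffAt.laplacian_add contDiffAt_const (contDiff_uu.const_smul (1 / 21 : ℝ)).contDiffAt
    have h3 : (Δ ((1 / 21 : ℝ) • uu)) x = (1 / 21 : ℝ) • (Δ uu) x :=
      InnerProductSpace.laplacian_smul (1 / 21 : ℝ) contDiff_uu.contDiffAt
    have h4 : (Δ (fun _ : E3 => M)) x = 0 := by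
      rw [InnerProductSpace.laplacian_eq_iteratedFDeriv_orthonormalBasis _
        (EuclideanSpace.basisFun (Fin 3) ℝ)]
      simp [iteratedFDeriv_two_apply]
    rw [h2, h3, h4, laplacian_uu]
    have h5 := hMz _ (hrange x (ball_subset_closedBall hx))
    show _ = f (M + (1 / 21 : ℝ) • uu x)
    rw [smul_zero, add_zero, smul_eq_mul, show (1 / 21 : ℝ) * uu x = uu x / 21 by ring, h5]
  · refine ⟨V, EuclideanSpace.single 0 1, Φ, oneDimSol_of_system hsm.continuous hV hW,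
      by simp, fun x hx => ?_⟩
    have h1 : inner ℝ (Φ ⟨x, ball_subset_closedBall hx⟩ : E3) (EuclideanSpace.single 0 1) =
        uu x / 21 := by
      rw [EuclideanSpace.inner_single_right]
      simp [hΦ]
    rw [h1, hVaff _ (hrange x (ball_subset_closedBall hx))]
  · rintro c C δ hc hδ ⟨V₂, a, Ψ, hV₂, ha, hΨ, hrep⟩
    have h0mem : (0 : E3) ∈ ball (0 : E3) δ := mem_ball_self hδ
    have hrep0 := hrep 0 h0mem
    simp only [uu_zero, zero_div, add_zero] at hrep0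
    have hd1 : Differentiable ℝ V₂ := hV₂.1.differentiable (by norm_num)
    by_cases hd : deriv V₂ (inner ℝ (Ψ 0) a) = 0
    · -- critical case
      have hge := ge_of_crit hf0 hV₂ hd
      have hx : (!₂[-(δ / 2), 0, 0] : E3) ∈ ball (0 : E3) δ := by
        rw [mem_ball_zero_iff]
        have hsq : ‖(!₂[-(δ / 2), 0, 0] : E3)‖ ^ 2 = (δ / 2) ^ 2 := by
          rw [EuclideanSpace.real_norm_sq_eq, Fin.sum_univ_three]
          show (-(δ / 2)) ^ 2 + 0 ^ 2 + 0 ^ 2 = _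
          ring
        rw [(sq_eq_sq₀ (norm_nonneg _) (by positivity)).1 hsq]
        linarith
      have h1 := hrep _ hx
      have h2 := uu_neg (t := δ / 2) (by positivity)
      have h3 := hge (inner ℝ (Ψ (!₂[-(δ / 2), 0, 0] : E3)) a)
      rw [← h1, ← hrep0] at h3
      linarith
    · obtain ⟨ε, hε, hlow⟩ := exists_lower (hd1 _).hasDerivAt hd
      set d := deriv V₂ (inner ℝ (Ψ 0) a) with hdd
      have hdpos : 0 < |d| := abs_pos.2 hd
      set η : ℝ := min (min δ 1) (ε / (|C| + 1)) with hη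
      have hη0 : 0 < η := lt_min (lt_min hδ one_pos) (by positivity)
      refine no_flat (K := 2 / |d| * (439 / 21)) hδ hc hΨ ha hη0 fun x hx => ?_
      rw [mem_ball_zero_iff] at hx
      have hx1 : ‖x‖ < δ := hx.trans_le ((min_le_left _ _).trans (min_le_left _ _))
      have hx2 : ‖x‖ ≤ 1 := (hx.trans_le ((min_le_left _ _).trans (min_le_right _ _))).le
      have hx3 : ‖x‖ < ε / (|C| + 1) := hx.trans_le (min_le_right _ _)
      have hxm : x ∈ ball (0 : E3) δ := by rw [mem_ball_zero_iff]; exact hx1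
      have e1 : inner ℝ a (Ψ x - Ψ 0) = inner ℝ (Ψ x) a - inner ℝ (Ψ 0) a := by
        rw [inner_sub_right, real_inner_comm, real_inner_comm a (Ψ 0)]
      rw [e1]
      have h1 : |inner ℝ (Ψ x) a - inner ℝ (Ψ 0) a| ≤ ‖Ψ x - Ψ 0‖ := by
        rw [← e1]
        have := abs_real_inner_le_norm a (Ψ x - Ψ 0)
        rwa [ha, one_mul] at this
      have h2 : ‖Ψ x - Ψ 0‖ ≤ |C| * ‖x‖ := by
        have := (hΨ x hxm 0 h0mem).2
        rw [sub_zero] at this
        exact this.trans (mul_le_mul_of_nonneg_right (le_abs_self _) (norm_nonneg _))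
      have h3 : |C| * ‖x‖ < ε := by
        rw [lt_div_iff₀ (by positivity)] at hx3
        nlinarith [norm_nonneg x, abs_nonneg C]
      have h4 := hlow _ (lt_of_le_of_lt (h1.trans h2) h3)
      rw [← hrep x hxm, ← hrep0] at h4
      have h5 : M + uu x / 21 - M = uu x / 21 := by ring
      rw [h5, abs_div, abs_of_pos (show (0 : ℝ) < 21 by norm_num)] at h4
      have h6 := uu_bound hx2
      have h7 : |uu x| / 21 ≤ 439 / 21 * ‖x‖ ^ 2 := by linarith
      have h8 : |inner ℝ (Ψ x) a - inner ℝ (Ψ 0) a| =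
          2 / |d| * (|d| / 2 * |inner ℝ (Ψ x) a - inner ℝ (Ψ 0) a|) := by field_simp
      rw [h8, mul_assoc (2 / |d|)]
      exact mul_le_mul_of_nonneg_left (h4.trans h7) (by positivity)

end Pool.Agent.Results.MP_c10eee_an.RigidityFails
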